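import Pool.Agent.N794.CG.Kl

/-!
# The angles and the signs of the Kloosterman sums `S(a, 1; p)` over the primes, for almost all members of automatic sets

From Mathlib: `DFA ℕ σ`: finite automata (for `[Fintype σ]`) which read words of natural numbers; `Nat.digits b v`: the
digits of `v` in base `b`, the least significant digit first.

Method: the random member of an automatic set of more than polylogarithmic size is dominated, up to a power of the
logarithm, by a random integer whose characteristic function decays (starting library, `Pool.Agent.H491R4.AF`); the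
passage from there to sums over primes of functions of residues, for almost all members, is from the starting library
(`Pool.Agent.R459.Eq`).
The signs in the finite-field model are from the starting library (`Pool.Agent.TH894.NF3`). The definitions of the
Kloosterman sums, the angles and the counts are in `Pool.Agent.N794.CG.Kl`.
-/

set_option autoImplicit false

namespace Pool.Agent.Results.MP_6ea630_nt.AutomaticArguments

open Finset Filter Polynomial Pool.Agent.N794.CG
open Pool.Agent.N794.CG.Kl (angleCount angleModel signCount)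

open Classical in
/-- The integers `0 ≤ v < N` whose digits in base `b` (the least significant digit first) are accepted by the automaton
`M`. -/
noncomputable def members {σ : Type} (b : ℕ) (M : DFA ℕ σ) (N : ℕ) : Finset ℕ :=
  (range N).filter (fun v => Nat.digits b v ∈ M.accepts)

open Classical in
/-- Almost all the integers `n = c + κ v` with `v ∈ members b M N`, up to a proportion of at most `τ`, have the property `P`. -/
def Almost {σ : Type} (b : ℕ) (M : DFA ℕ σ) (N : ℕ) (κ c : ℤ) (τ : ℝ) (P : ℤ → Prop) : Prop :=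
  (((members b M N).filter (fun v : ℕ => ¬ P (c + κ * v))).card : ℝ) ≤ τ * (members b M N).card

lemma almost_of {σ : Type} {b : ℕ} {M : DFA ℕ σ} {N : ℕ} {κ c : ℤ} {τ : ℝ} {P Q : ℤ → Prop}
    (h : Mostly (mem b M N) (fun _ => 1 / ((mem b M N).card : ℝ)) (fun v => c + κ * (v : ℕ)) τ P) (hPQ : ∀ n, P n → Q n) :
    Almost b M N κ c τ Q := by
  classical
  have h1 := h ((mem b M N).filter (fun v : ℕ => ¬ Q (c + κ * v))) (filter_subset _ _)
    (fun i hi hP => (mem_filter.1 hi).2 (hPQ _ hP))
  have e : members b M N = mem b M N := rfl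
  unfold Almost
  rw [e]
  rw [sum_const, nsmul_eq_mul, mul_one_div] at h1
  rcases Nat.eq_zero_or_pos (mem b M N).card with h0 | h0
  · have h2 : (mem b M N).filter (fun v : ℕ => ¬ Q (c + κ * v)) = ∅ := by
      rw [card_eq_zero.1 h0, filter_empty]
    rw [h2, h0]
    simp
  · have h5 : (0 : ℝ) < (mem b M N).card := by exact_mod_cast h0
    rw [div_le_iff₀ h5] at h1
    exact h1


/-- Let `A` be a finite automaton which accepts the digits, in base `b ≥ 2`, of more than
polylogarithmically many integers: for every `k` there are infinitely many `N` such that more than `(log N) ^ k` integers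
`v < N` are accepted (this excludes only sparse sets; the number of the accepted `v < N` may be `N ^ c` with arbitrarily
small `c > 0`). Let `0 < δ ≤ 1 / 2`. There are `W` and `e` such that for `κ ≠ 0` and all sufficiently large `X` the following holds for all `N` and all `c`.

(1) For ALL polynomials `P ∈ ℤ[T]` and ALL sets `S` of primes, almost all the integers `n = c + κ v` with `v < N` accepted by
`A`, up to a proportion of at most `(log N) ^ e X ^ (- δ)`, have for ALL `x ≥ X` with `x ^ W ≤ N` and ALL intervals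
`[y, z)`: the number of the primes `p ≤ x` in `S` for which the angle of `S(P(n), 1; p)` is in `[y, z)` differs from the sum
over these primes of the proportion of the residues `t` modulo `p` for which the angle of `S(P(t), 1; p)` is in `[y, z)` by
at most `2 x ^ (1 / 2 + δ)`.

(2) Almost all the `a = c + κ v` with `v < N` accepted by `A`, up to a proportion of at most `2 (log N) ^ e X ^ (- δ)`, have for
ALL `x ≥ X` with `x ^ W ≤ N`, both signs `σ = ± 1` and ALL `η₀ ≥ 0`: there are at least
`(1 / 4 - η₀) π(x) - 5 x ^ (1 / 2 + δ)` primes `p ≤ x` with `σ S(a, 1; p) > η₀ p ^ (1 / 2)`. -/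
theorem result {σ : Type} [Fintype σ] (b : ℕ) (hb : 2 ≤ b) (A : DFA ℕ σ)
    (hS : ∀ k : ℕ, ∃ᶠ N : ℕ in atTop, Real.log N ^ k < ((members b A N).card : ℝ))
    (δ : ℝ) (hδ : 0 < δ) (hδ1 : δ ≤ 1 / 2) : ∃ W e : ℕ, 1 ≤ W ∧
    ∀ κ : ℤ, κ ≠ 0 → ∃ X₀ : ℕ, ∀ X : ℕ, X₀ ≤ X → ∀ (N : ℕ) (c : ℤ),
    (∀ (P : Polynomial ℤ) (S : Set ℕ), Almost b A N κ c (Real.log N ^ e * (X : ℝ) ^ (-δ)) (fun n => ∀ x : ℕ, X ≤ x → x ^ W ≤ N →
      ∀ y z : ℝ, |(angleCount S y z x (P.eval n) : ℝ) - angleModel P S y z x| ≤ 2 * (x : ℝ) ^ (1 / 2 + δ))) ∧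
    Almost b A N κ c (2 * (Real.log N ^ e * (X : ℝ) ^ (-δ))) (fun a => ∀ x : ℕ, X ≤ x → x ^ W ≤ N → ∀ (σ : ℝ), σ = 1 ∨ σ = -1 → ∀ η₀ : ℝ, 0 ≤ η₀ →
      (1 / 4 - η₀) * (((range (x + 1)).filter Nat.Prime).card : ℝ) - 5 * (x : ℝ) ^ (1 / 2 + δ) ≤ signCount σ η₀ x a) := by
  obtain ⟨W, e, hW, H⟩ := eng_aut (fun X => by positivity) (eng_ang δ hδ hδ1) b hb A hS
  refine ⟨W, e, hW, fun κ hκ => ?_⟩
  obtain ⟨X₀, J⟩ := H κ hκ
  refine ⟨X₀ + 1, fun X hX N c => ⟨fun P S => ?_, ?_⟩⟩
  · exact almost_of (Kl.kl_angles (fun s => J X (by omega) N c s) P S) fun _ h => h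
  · have h1 := Kl.kl_signs hδ (by omega : 1 ≤ X) (fun s => J X (by omega) N c s) 1 (Or.inl rfl)
    have h2 := Kl.kl_signs hδ (by omega : 1 ≤ X) (fun s => J X (by omega) N c s) (-1) (Or.inr rfl)
    have h3 := Mostly.and (fun _ _ => by positivity) h1 h2
    have e : 2 * (Real.log N ^ e * (X : ℝ) ^ (-δ)) = Real.log N ^ e * (X : ℝ) ^ (-δ) + Real.log N ^ e * (X : ℝ) ^ (-δ) := by ring
    rw [e]
    refine almost_of h3 fun a ha x hXx hx σ hσ η₀ hη₀ => ?_
    rcases hσ with h | h
    · rw [h]
      exact ha.1 x hXx hx η₀ hη₀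
    · rw [h]
      exact ha.2 x hXx hx η₀ hη₀

end Pool.Agent.Results.MP_6ea630_nt.AutomaticArguments
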