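import Pool.Agent.N384.MQ.Fped
import Pool.Agent.N384.MQ.Gen
import Pool.Agent.TH894.NF3

/-!
# The Kloosterman angles at `m` consecutive primes for members of families of residues: all boxes, with square-root error
against the finite-field model, and all patterns of signs

From Mathlib: `ZMod.stdAddChar`: the additive character `j ↦ exp (2 π i j / q)` of the integers modulo `q`; `ZMod.val`: the
least residue; `Nat.nth Nat.Prime k`: the prime with the index `k`, starting with `k = 0`; `Set.OrdConnected`: intervals.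

Method: a family of residues modulo `q` with small Fourier coefficients has small exponential sums at all real
frequencies which are not close to integers; so the least residues are uniformly distributed in residue classes with a
power saving, for all moduli up to a power. The high moments and the passage to all boxes follow the starting files
(`Pool.Agent.TH869.SQ`), where the arguments are all the integers; the signs in the finite-field model are from the starting
files (`Pool.Agent.TH894.NF3`). Examples: a lemma of Ajtai, Iwaniec, Komlos, Pintz and Szemeredi on quotients by small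
primes, the Stepanov type lemma of Heath-Brown and Konyagin for subgroups (library `H435R3.HBK`, `N825.FC`), and Weyl
sums without losses (library `H373R2.NB`).
-/

set_option autoImplicit false

namespace Pool.Agent.Results.MP_6ea630_nt.ResidueFamilies

open Finset Filter Polynomial

/-- The Fourier coefficients of the residues `y i`, `i ∈ s`, modulo `q` at the nonzero frequencies are at most
`η` times the number of the residues: `|∑ i ∈ s, e(h y_i / q)| ≤ η |s|` for all `h ≠ 0` modulo `q`. -/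
def Flat {ι : Type} (q : ℕ) [NeZero q] (η : ℝ) (s : Finset ι) (y : ι → ZMod q) : Prop :=
  ∀ h : ZMod q, h ≠ 0 → ‖∑ i ∈ s, (ZMod.stdAddChar (h * y i) : ℂ)‖ ≤ η * s.card

open Classical in
/-- Almost all the least residues `v = y_i`, `0 ≤ y_i < q`, `i ∈ s`, up to a proportion of at most `τ` of the `i`, have the
property `P`. -/
def Almost {ι : Type} {q : ℕ} (s : Finset ι) (y : ι → ZMod q) (τ : ℝ) (P : ℕ → Prop) : Prop :=
  ((s.filter (fun i => ¬ P (y i).val)).card : ℝ) ≤ τ * s.card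

lemma fam_of {ι : Type} {q : ℕ} [NeZero q] {s : Finset ι} {y : ι → ZMod q} {Z : ℝ} (hZ : 0 < Z) (hZq : Z ≤ q)
    (h : Flat q (1 / (Z * (42 + 3 * Real.log q))) s y) :
    Pool.Agent.N384.MQ.Fam q s y (Z * (42 + 3 * Real.log q)) Z :=
  ⟨mul_pos hZ (by have := Real.log_natCast_nonneg q; linarith), h, hZq, le_rfl⟩

/-- The Kloosterman sum `S(a, 1; p)`. -/
noncomputable def kloosterman (p : ℕ) (a : ℤ) : ℝ :=
  ∑ x ∈ Ico 1 p, Real.cos (2 * Real.pi * ((((a : ZMod p) * (x : ZMod p) + (x : ZMod p)⁻¹).val : ℕ) : ℝ) / (p : ℝ))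

/-- The angle `θ / π` in `[0, 1]`, where `2 p ^ (1 / 2) cos θ = S(a, 1; p)`, and `1 / 2` if `p` divides `a`. -/
noncomputable def angle (p : ℕ) (a : ℤ) : ℝ :=
  if (p : ℤ) ∣ a then 1 / 2 else Real.arccos (kloosterman p a / (2 * √(p : ℝ))) / Real.pi

open Classical in
/-- The number of the indices `k < K` for which the angles at the `s` consecutive primes with the indices
`k, ..., k + s - 1` (the primes are numbered from `0`) are in the sets `I 0, ..., I (s - 1)`. -/
noncomputable def boxCount {s : ℕ} (I : Fin s → Set ℝ) (K : ℕ) (a : ℤ) : ℕ :=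
  ((range K).filter (fun k => ∀ i : Fin s, angle (Nat.nth Nat.Prime (k + i)) a ∈ I i)).card

open Classical in
/-- The proportion of the residues `t` modulo `p` for which the angle at `P(t)` is in `S`. -/
noncomputable def proportion (P : ℤ[X]) (p : ℕ) (S : Set ℝ) : ℝ :=
  (((range p).filter (fun t : ℕ => angle p (P.eval (t : ℤ)) ∈ S)).card : ℝ) / p

/-- The expected number: the sum over `k < K` of the product of the proportions at the `s` primes. -/
noncomputable def boxModel {s : ℕ} (P : ℤ[X]) (I : Fin s → Set ℝ) (K : ℕ) : ℝ :=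
  ∑ k ∈ range K, ∏ i : Fin s, proportion P (Nat.nth Nat.Prime (k + i)) (I i)

open Classical in
/-- The number of the indices `k < K` such that for all `i < s` the prime `p` with the index `k + i` does not divide `a` and
`σ i S(a, 1; p) > η p ^ (1 / 2)`. -/
noncomputable def signCount (s : ℕ) (σ : Fin s → ℝ) (η : ℝ) (K : ℕ) (a : ℤ) : ℕ :=
  ((range K).filter (fun k => ∀ i : Fin s, ¬ ((Nat.nth Nat.Prime (k + i) : ℕ) : ℤ) ∣ a ∧
    η * √((Nat.nth Nat.Prime (k + i) : ℕ) : ℝ) < σ i * kloosterman (Nat.nth Nat.Prime (k + i)) a)).card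

/-- the Kloosterman sum as a function on the residue classes -/
noncomputable def kz (p : ℕ) (z : ZMod p) : ℝ :=
  ∑ x ∈ Ico 1 p, Real.cos (2 * Real.pi * (((z * (x : ZMod p) + (x : ZMod p)⁻¹).val : ℕ) : ℝ) / (p : ℝ))

lemma k_eq (p : ℕ) (a : ℤ) : kloosterman p a = kz p (a : ZMod p) := rfl

lemma angle_congr (p : ℕ) {a b : ℤ} (h : (p : ℤ) ∣ a - b) : angle p a = angle p b := by
  have e : (a : ZMod p) = (b : ZMod p) := by
    rw [← sub_eq_zero, ← Int.cast_sub, ZMod.intCast_zmod_eq_zero_iff_dvd]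
    exact h
  unfold angle
  rw [k_eq, k_eq, e]
  by_cases h1 : (p : ℤ) ∣ b
  · rw [if_pos h1, if_pos ((dvd_iff_dvd_of_dvd_sub h).2 h1)]
  · rw [if_neg h1, if_neg (fun h2 => h1 ((dvd_iff_dvd_of_dvd_sub h).1 h2))]

/-- the interval of the angles with a given sign -/
noncomputable def side (η σ : ℝ) : Set ℝ :=
  if σ = 1 then Set.Iio (Real.arccos (η / 2) / Real.pi) else Set.Ioi (Real.arccos (-(η / 2)) / Real.pi)

lemma side_oc (η σ : ℝ) : (side η σ).OrdConnected := by
  unfold side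
  split_ifs
  · exact Set.ordConnected_Iio
  · exact Set.ordConnected_Ioi

lemma arccos_lt (y z : ℝ) (hz0 : -1 < z) (hz1 : z < 1) : (Real.arccos y < Real.arccos z ↔ z < y) ∧
    (Real.arccos z < Real.arccos y ↔ y < z) := by
  have h1 : ∀ u w : ℝ, -1 < u → u < 1 → u < w → Real.arccos w < Real.arccos u := by
    intro u w hu hu1 huw
    rcases le_or_gt w 1 with h | h
    · exact Real.strictAntiOn_arccos ⟨hu.le, hu1.le⟩ ⟨by linarith, h⟩ huw
    · rw [Real.arccos_of_one_le h.le]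
      exact Real.arccos_pos.2 hu1
  have h2 : ∀ u w : ℝ, -1 < u → u < 1 → w < u → Real.arccos u < Real.arccos w := by
    intro u w hu hu1 huw
    rcases le_or_gt (-1) w with h | h
    · exact Real.strictAntiOn_arccos ⟨h, by linarith⟩ ⟨hu.le, hu1.le⟩ huw
    · rw [Real.arccos_of_le_neg_one h.le]
      exact Real.strictAntiOn_arccos.injOn.ne_iff ⟨hu.le, hu1.le⟩ ⟨le_rfl, by norm_num⟩ |>.2 hu.ne' |>
        fun h3 => lt_of_le_of_ne (Real.arccos_le_pi u) (by rwa [Real.arccos_neg_one] at h3)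
  refine ⟨⟨fun h => ?_, h1 z y hz0 hz1⟩, ⟨fun h => ?_, h2 z y hz0 hz1⟩⟩
  · by_contra hcon
    push Not at hcon
    rcases hcon.eq_or_lt with h3 | h3
    · rw [h3] at h
      exact lt_irrefl _ h
    · have := h2 z y hz0 hz1 h3
      linarith
  · by_contra hcon
    push Not at hcon
    rcases hcon.eq_or_lt with h3 | h3
    · rw [h3] at h
      exact lt_irrefl _ h
    · have := h1 z y hz0 hz1 h3
      linarith

/-- the signs in terms of the angles -/
lemma side_iff (η : ℝ) (hη : 0 ≤ η) (hη1 : η ≤ 1 / 4) (σ : ℝ) (hσ : σ = 1 ∨ σ = -1) (p : ℕ) (hp : 0 < p) (a : ℤ) :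
    angle p a ∈ side η σ ↔ ¬ (p : ℤ) ∣ a ∧ η * √(p : ℝ) < σ * kloosterman p a := by
  have hp0 : (0 : ℝ) < p := by exact_mod_cast hp
  have hs : 0 < √(p : ℝ) := Real.sqrt_pos.2 hp0
  have hpi := Real.pi_pos
  unfold angle side
  rcases hσ with h | h
  · rw [h, if_pos rfl, one_mul, Set.mem_Iio]
    by_cases h1 : (p : ℤ) ∣ a
    · rw [if_pos h1]
      constructor
      · intro h2
        exfalso
        rw [lt_div_iff₀ hpi] at h2
        have h3 : Real.arccos (η / 2) ≤ Real.pi / 2 := Real.arccos_le_pi_div_two.2 (by linarith)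
        linarith
      · rintro ⟨h2, _⟩
        exact absurd h1 h2
    · rw [if_neg h1, div_lt_div_iff_of_pos_right hpi, (arccos_lt _ (η / 2) (by linarith) (by linarith)).1,
        lt_div_iff₀ (by positivity)]
      constructor
      · intro h2
        exact ⟨h1, by linarith⟩
      · rintro ⟨_, h2⟩
        linarith
  · have hne : ¬ ((-1 : ℝ) = 1) := by norm_num
    rw [h, if_neg hne, neg_one_mul, Set.mem_Ioi]
    by_cases h1 : (p : ℤ) ∣ a
    · rw [if_pos h1]
      constructor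
      · intro h2
        exfalso
        rw [div_lt_iff₀ hpi] at h2
        have h3 := Real.arccos_neg (η / 2)
        have h4 : Real.arccos (η / 2) ≤ Real.pi / 2 := Real.arccos_le_pi_div_two.2 (by linarith)
        linarith
      · rintro ⟨h2, _⟩
        exact absurd h1 h2
    · rw [if_neg h1, div_lt_div_iff_of_pos_right hpi, (arccos_lt _ (-(η / 2)) (by linarith) (by linarith)).2,
        div_lt_iff₀ (by positivity)]
      constructor
      · intro h2
        exact ⟨h1, by linarith⟩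
      · rintro ⟨_, h2⟩
        linarith

open Classical in
lemma count_zmod (p : ℕ) [NeZero p] (Q : ZMod p → Prop) :
    ((range p).filter (fun t : ℕ => Q (t : ZMod p))).card = ((univ : Finset (ZMod p)).filter Q).card := by
  apply card_bij (fun (t : ℕ) _ => (t : ZMod p))
  · intro t ht
    rw [mem_filter] at ht ⊢
    exact ⟨mem_univ _, ht.2⟩
  · intro t ht t' ht' h
    rw [mem_filter, mem_range] at ht ht'
    have h1 := congrArg ZMod.val h
    rwa [ZMod.val_cast_of_lt ht.1, ZMod.val_cast_of_lt ht'.1] at h1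
  · intro z hz
    refine ⟨z.val, ?_, ZMod.natCast_zmod_val z⟩
    rw [mem_filter, mem_range] at *
    refine ⟨ZMod.val_lt z, ?_⟩
    rw [ZMod.natCast_zmod_val]
    exact hz.2

open Classical in
/-- the proportion of a sign for linear polynomials -/
lemma prop_ge (η : ℝ) (hη : 0 ≤ η) (hη1 : η ≤ 1 / 4) (σ : ℝ) (hσ : σ = 1 ∨ σ = -1) (p : ℕ) (hp : p.Prime) (c₀ κ : ℤ)
    (hκ : ¬ (p : ℤ) ∣ κ) : 1 / 4 - η - 1 / √(p : ℝ) - 1 / p ≤ proportion (C c₀ + C κ * X) p (side η σ) := by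
  haveI : Fact p.Prime := ⟨hp⟩
  haveI : NeZero p := ⟨hp.ne_zero⟩
  refine (Pool.Agent.TH894.NF.sg_prop η hη σ hσ p hp).trans (le_of_eq ?_)
  obtain ⟨Q, hQ⟩ : ∃ Q : ZMod p → Prop, Q = fun z => z ≠ 0 ∧ η * √(p : ℝ) < σ * kz p z := ⟨_, rfl⟩
  have hdvd : ∀ a : ℤ, ¬ (p : ℤ) ∣ a ↔ (a : ZMod p) ≠ 0 := by
    intro a
    rw [Ne, ZMod.intCast_zmod_eq_zero_iff_dvd]
  unfold proportion Pool.Agent.TH894.NE.Pr
  rw [pow_one]
  congr 2
  have e1 : ((Pool.Agent.TH894.NE.box 1 p).filter (fun m => ¬ p ∣ m 0 ∧ η * √(p : ℝ) < σ * Pool.Agent.TH894.NF.kls p (m 0))).card =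
      ((range p).filter (fun t : ℕ => Q (t : ZMod p))).card := by
    apply card_bij (fun m _ => m 0)
    · intro m hm
      simp only [mem_filter, Pool.Agent.TH894.NE.mem_box] at hm
      simp only [mem_filter, mem_range]
      refine ⟨hm.1 0, ?_⟩
      rw [hQ]
      refine ⟨?_, hm.2.2⟩
      rw [Ne, ZMod.natCast_eq_zero_iff]
      exact hm.2.1
    · intro m _ m' _ hmm
      funext i
      rw [Subsingleton.elim i 0]
      exact hmm
    · intro a ha
      simp only [mem_filter, mem_range] at ha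
      refine ⟨fun _ => a, ?_, rfl⟩
      simp only [mem_filter, Pool.Agent.TH894.NE.mem_box]
      rw [hQ] at ha
      refine ⟨fun _ => ha.1, ?_, ha.2.2⟩
      have h3 := ha.2.1
      rw [Ne, ZMod.natCast_eq_zero_iff] at h3
      exact h3
  have e2 : ((range p).filter (fun t : ℕ => angle p ((C c₀ + C κ * X : ℤ[X]).eval (t : ℤ)) ∈ side η σ)).card =
      ((range p).filter (fun t : ℕ => Q ((c₀ : ZMod p) + (κ : ZMod p) * (t : ZMod p)))).card := by
    congr 1
    apply filter_congr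
    intro t _
    rw [side_iff η hη hη1 σ hσ p hp.pos, hdvd, hQ, k_eq]
    simp only [eval_add, eval_mul, eval_C, eval_X]
    push_cast
    rfl
  have hκ0 : (κ : ZMod p) ≠ 0 := by
    rw [← hdvd]
    exact hκ
  rw [e2, count_zmod p (fun z => Q ((c₀ : ZMod p) + (κ : ZMod p) * z))]
  have e3 : ((univ : Finset (ZMod p)).filter (fun z => Q ((c₀ : ZMod p) + (κ : ZMod p) * z))).card =
      ((univ : Finset (ZMod p)).filter Q).card := by
    apply card_bij (fun z _ => (c₀ : ZMod p) + (κ : ZMod p) * z)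
    · intro z hz
      rw [mem_filter] at hz ⊢
      exact ⟨mem_univ _, hz.2⟩
    · intro z _ z' _ h
      exact mul_left_cancel₀ hκ0 (add_left_cancel h)
    · intro w hw
      refine ⟨(w - c₀) / κ, ?_, ?_⟩
      · rw [mem_filter] at hw ⊢
        refine ⟨mem_univ _, ?_⟩
        rw [mul_div_cancel₀ _ hκ0, add_sub_cancel]
        exact hw.2
      · rw [mul_div_cancel₀ _ hκ0, add_sub_cancel]
  rw [e3, ← count_zmod p Q, ← e1]
  congr!

open Pool.Agent.TH894.NF (pow_diff)

/-- the model for the signs -/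
lemma model_ge (s : ℕ) (hs : 1 ≤ s) (η ε : ℝ) (hη : 0 ≤ η) (hη1 : η ≤ 1 / 4) (hε : 0 < ε) (κ : ℤ) (hκ : κ ≠ 0) :
    ∃ k₁ : ℕ, ∀ n : ℕ, k₁ ≤ n → ∀ (c₀ : ℤ) (σ : Fin s → ℝ), (∀ i, σ i = 1 ∨ σ i = -1) →
      ((1 / 4 - η) ^ s - ε / 4) * (n - k₁) ≤ boxModel (C c₀ + C κ * X) (fun i => side η (σ i)) n := by
  have hsr : (1 : ℝ) ≤ s := by exact_mod_cast hs
  obtain ⟨ε₁, hε₁⟩ : ∃ ε₁, ε₁ = ε / (4 * s) := ⟨_, rfl⟩
  have hε₁0 : 0 < ε₁ := by rw [hε₁]; positivity
  obtain ⟨k₁, hk₁⟩ := exists_nat_ge ((2 / ε₁) ^ 2 + 2 / ε₁ + 1 + κ.natAbs)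
  refine ⟨k₁, fun n hge c₀ σ hσ => ?_⟩
  have hnn : ∀ (P : ℤ[X]) (p : ℕ) (S : Set ℝ), 0 ≤ proportion P p S := by
    intro P p S
    unfold proportion
    positivity
  unfold boxModel
  have h1 : ∀ k ∈ range n, 0 ≤ ∏ i : Fin s, proportion (C c₀ + C κ * X) (Nat.nth Nat.Prime (k + i)) (side η (σ i)) :=
    fun k _ => prod_nonneg fun i _ => hnn _ _ _
  have hsub : Ico k₁ n ⊆ range n := by
    intro k hk
    rw [mem_Ico] at hk
    exact mem_range.2 hk.2
  refine le_trans ?_ (sum_le_sum_of_subset_of_nonneg hsub fun k hk _ => h1 k hk)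
  have h2 : ∀ k ∈ Ico k₁ n, (1 / 4 - η) ^ s - ε / 4 ≤
      ∏ i : Fin s, proportion (C c₀ + C κ * X) (Nat.nth Nat.Prime (k + i)) (side η (σ i)) := by
    intro k hk
    rw [mem_Ico] at hk
    by_cases hsm : 1 / 4 - η - ε₁ < 0
    · have h3 := h1 k (mem_range.2 hk.2)
      have h4 := pow_diff (1 / 4 - η) 0 le_rfl (by linarith) (by linarith) s
      rw [zero_pow (by omega)] at h4
      have h5 : (s : ℝ) * (1 / 4 - η - 0) ≤ s * ε₁ := mul_le_mul_of_nonneg_left (by linarith) (by linarith)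
      have h6 : (s : ℝ) * ε₁ = ε / 4 := by rw [hε₁]; field_simp
      linarith
    · push Not at hsm
      have h4 := pow_diff (1 / 4 - η) (1 / 4 - η - ε₁) hsm (by linarith) (by linarith) s
      have h6 : (s : ℝ) * (1 / 4 - η - (1 / 4 - η - ε₁)) = ε / 4 := by rw [hε₁]; field_simp; ring
      rw [h6] at h4
      refine h4.trans ?_
      calc (1 / 4 - η - ε₁) ^ s = ∏ _i : Fin s, (1 / 4 - η - ε₁) := by rw [prod_const, card_univ, Fintype.card_fin]
        _ ≤ _ := by
          apply prod_le_prod (fun i _ => hsm)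
          intro i _
          have hpr : (Nat.nth Nat.Prime (k + i)).Prime := Nat.prime_nth_prime _
          have h9 : k₁ ≤ Nat.nth Nat.Prime (k + i) := by
            have : k + i ≤ Nat.nth Nat.Prime (k + i) := (Nat.nth_strictMono Nat.infinite_setOfPred_prime).id_le (k + i)
            omega
          have h10 : (k₁ : ℝ) ≤ (Nat.nth Nat.Prime (k + i) : ℕ) := by exact_mod_cast h9
          have hnd : ¬ ((Nat.nth Nat.Prime (k + i) : ℕ) : ℤ) ∣ κ := by
            intro hd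
            have h11 : Nat.nth Nat.Prime (k + i) ≤ κ.natAbs :=
              Nat.le_of_dvd (Int.natAbs_pos.2 hκ) (Int.natCast_dvd.1 hd)
            have h12 : ((Nat.nth Nat.Prime (k + i) : ℕ) : ℝ) ≤ κ.natAbs := by exact_mod_cast h11
            have h13 : 0 ≤ (2 / ε₁) ^ 2 := sq_nonneg _
            have h14 : 0 < 2 / ε₁ := by positivity
            linarith
          have h7 := prop_ge η hη hη1 (σ i) (hσ i) (Nat.nth Nat.Prime (k + i)) hpr c₀ κ hnd
          refine le_trans ?_ h7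
          obtain ⟨P, hP⟩ : ∃ P : ℝ, P = (Nat.nth Nat.Prime (k + i) : ℕ) := ⟨_, rfl⟩
          rw [← hP] at h10 ⊢
          have hκn : (0 : ℝ) ≤ κ.natAbs := Nat.cast_nonneg _
          have h11 : (2 / ε₁) ^ 2 + 2 / ε₁ + 1 ≤ P := by linarith
          have h12 : 0 < 2 / ε₁ := by positivity
          have h13 : 1 / P ≤ ε₁ / 2 := by
            rw [div_le_div_iff₀ (by nlinarith) (by norm_num)]
            have : 2 / ε₁ ≤ P := by nlinarith [sq_nonneg (2 / ε₁)]
            rw [div_le_iff₀ hε₁0] at this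
            linarith
          have h14 : 2 / ε₁ ≤ √P := Real.le_sqrt_of_sq_le (by nlinarith)
          have h15 : 1 / √P ≤ ε₁ / 2 := by
            rw [div_le_div_iff₀ (by linarith) (by norm_num)]
            rw [div_le_iff₀ hε₁0] at h14
            linarith
          linarith
  calc ((1 / 4 - η) ^ s - ε / 4) * (n - k₁) = ∑ _k ∈ Ico k₁ n, ((1 / 4 - η) ^ s - ε / 4) := by
        rw [sum_const, Nat.card_Ico, nsmul_eq_mul, Nat.cast_sub hge]
        ring
    _ ≤ _ := sum_le_sum h2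

open Classical in
lemma boxes (m : ℕ) (hm : 1 ≤ m) (δ : ℝ) (hδ : 0 < δ) : ∃ κ C : ℝ, 0 < κ ∧ κ ≤ 1 ∧ 1 ≤ C ∧
      ∀ (ι : Type) (q : ℕ) [NeZero q] (s : Finset ι) (y : ι → ZMod q) (Z : ℝ), 0 < Z → Z ≤ q →
      Flat q (1 / (Z * (42 + 3 * Real.log q))) s y → ∀ P : ℤ[X],
        Almost s y (C * Z ^ (-κ)) (fun v => ∀ K : ℕ, (K : ℝ) ≤ Z ^ κ →
          ∀ I : Fin m → Set ℝ, (∀ i, (I i).OrdConnected) →
            |(boxCount I K (P.eval (v : ℤ)) : ℝ) - boxModel P I K| ≤
              C * ((K : ℝ) ^ (1 / 2 + δ) * √(1 + Real.log Z))) := by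
  obtain ⟨κ, C, h1, h2, h3, H⟩ := Pool.Agent.N384.MQ.mq_consec m hm δ hδ
  refine ⟨κ, C, h1, h2, h3, fun ι q _ s y Z hZ hZq hfl P => ?_⟩
  have hE := H (fun p n => angle p (P.eval (n : ℤ))) (by
    intro p n
    apply angle_congr
    have e : ((n + p : ℕ) : ℤ) - (n : ℤ) = p := by push_cast; ring
    have := P.sub_dvd_eval_sub ((n + p : ℕ) : ℤ) (n : ℤ)
    rwa [e] at this) ι q s y _ Z (fam_of hZ hZq hfl) hZ
  unfold Almost
  refine le_trans (Nat.cast_le.2 (card_le_card fun n hn => ?_)) hE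
  rw [mem_filter] at hn ⊢
  refine ⟨hn.1, fun hcon => hn.2 ?_⟩
  intro K hK I hI
  have h := hcon K hK I hI
  rw [sum_sub_distrib] at h
  have e1 : (boxCount I K (P.eval ((y n).val : ℤ)) : ℝ) = ∑ k ∈ range K,
      Pool.Agent.TH869.SQ.ind I (fun i : Fin m => angle (Pool.Agent.TH869.SQ.pr (k + i)) (P.eval ((y n).val : ℤ))) := by
    unfold boxCount Pool.Agent.TH869.SQ.ind Pool.Agent.TH869.SQ.pr
    rw [sum_boole]
  have e2 : boxModel P I K = ∑ k ∈ range K, ∏ i : Fin m,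
      Pool.Agent.TH869.SQ.mean (Pool.Agent.TH869.SQ.pr (k + i)) (fun t =>
        Pool.Agent.TH869.SQ.ind1 (I i) (angle (Pool.Agent.TH869.SQ.pr (k + i)) (P.eval (t : ℤ)))) := by
    unfold boxModel proportion Pool.Agent.TH869.SQ.mean Pool.Agent.TH869.SQ.ind1 Pool.Agent.TH869.SQ.pr
    refine sum_congr rfl fun k _ => prod_congr rfl fun i _ => ?_
    rw [sum_boole]
  rw [e1, e2]
  exact h

open Classical in
lemma signs (m : ℕ) (hm : 1 ≤ m) : ∃ θ : ℝ, 0 < θ ∧ ∀ η ε : ℝ, 0 ≤ η → η ≤ 1 / 4 → 0 < ε → ∀ κ : ℤ, κ ≠ 0 →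
      ∃ Z₀ : ℕ, ∀ (ι : Type) (q : ℕ) [NeZero q] (s : Finset ι) (y : ι → ZMod q) (Z : ℝ), Z₀ ≤ Z → Z ≤ q →
      Flat q (1 / (Z * (42 + 3 * Real.log q))) s y → ∀ c₀ : ℤ,
        Almost s y (Z ^ (-θ)) (fun v => ∀ K : ℕ, Real.log Z ^ 2 ≤ K → (K : ℝ) ≤ Z ^ θ →
          ∀ σ : Fin m → ℝ, (∀ i, σ i = 1 ∨ σ i = -1) →
            ((1 / 4 - η) ^ m - ε) * K ≤ signCount m σ η K (c₀ + κ * (v : ℕ))) := by
  obtain ⟨κ₁, C₁, h1, h2, h3, H⟩ := boxes m hm (1 / 8) (by norm_num)
  refine ⟨κ₁ / 2, by positivity, fun η ε hη hη1 hε κ hκ => ?_⟩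
  obtain ⟨k₁, hk₁⟩ := model_ge m hm η ε hη hη1 hε κ hκ
  have t1 : Tendsto (fun Z : ℝ => Z ^ (κ₁ / 2)) atTop atTop := tendsto_rpow_atTop (by positivity)
  have t2 : Tendsto (fun Z : ℝ => Real.log Z) atTop atTop := Real.tendsto_log_atTop
  have t3 : Tendsto (fun Z : ℝ => Real.log Z ^ (1 / 4 : ℝ)) atTop atTop := (tendsto_rpow_atTop (by norm_num)).comp t2
  have ev := (t1.eventually_ge_atTop C₁).and ((t2.eventually_ge_atTop (4 * k₁ / ε + k₁ + 1)).and
    (t3.eventually_ge_atTop (4 * C₁ * 2 / ε)))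
  obtain ⟨N₀, hN₀⟩ := eventually_atTop.1 ev
  obtain ⟨N₁, hN₁⟩ := exists_nat_ge N₀
  refine ⟨N₁ + 1, fun ι q _ s y N hN hNq hfl c₀ => ?_⟩
  have hN' : (N₁ : ℝ) + 1 ≤ N := by exact_mod_cast hN
  obtain ⟨q1, q2, q3⟩ := hN₀ N (by linarith)
  have hN1 : (1 : ℝ) ≤ N := by
    have : (0 : ℝ) ≤ N₁ := Nat.cast_nonneg _
    linarith
  have hN0 : (0 : ℝ) < N := by linarith
  have hk0 : (0 : ℝ) ≤ k₁ := Nat.cast_nonneg _
  have hkε : 0 ≤ 4 * k₁ / ε := by positivity
  have hL1 : 1 ≤ Real.log N := by linarith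
  have hmain := H ι q s y N hN0 hNq hfl (C c₀ + C κ * X)
  have hpow : C₁ * N ^ (-κ₁) * s.card ≤ N ^ (-(κ₁ / 2)) * s.card := by
    apply mul_le_mul_of_nonneg_right _ (Nat.cast_nonneg _)
    calc C₁ * (N : ℝ) ^ (-κ₁) ≤ (N : ℝ) ^ (κ₁ / 2) * (N : ℝ) ^ (-κ₁) := mul_le_mul_of_nonneg_right q1 (by positivity)
      _ = _ := by
          rw [← Real.rpow_add hN0]
          congr 1
          ring
  unfold Almost at hmain ⊢
  refine le_trans (Nat.cast_le.2 (card_le_card fun n hn => ?_)) (hmain.trans hpow)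
  rw [mem_filter] at hn ⊢
  refine ⟨hn.1, fun hcon => hn.2 ?_⟩
  intro K hK1 hK2 σ hσ
  have hL2 : Real.log N ≤ Real.log N ^ 2 := by nlinarith
  have hKL : Real.log N ≤ K := hL2.trans hK1
  have hK0 : (0 : ℝ) < K := by linarith
  have hb := hcon K (hK2.trans (Real.rpow_le_rpow_of_exponent_le hN1 (by linarith))) (fun i => side η (σ i))
    (fun i => side_oc η (σ i))
  have hcount : boxCount (fun i => side η (σ i)) K ((C c₀ + C κ * X : ℤ[X]).eval ((y n).val : ℤ)) =
      signCount m σ η K (c₀ + κ * ((y n).val : ℕ)) := by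
    have e : (C c₀ + C κ * X : ℤ[X]).eval ((y n).val : ℤ) = c₀ + κ * ((y n).val : ℕ) := by
      simp only [eval_add, eval_mul, eval_C, eval_X]
    rw [e]
    unfold boxCount signCount
    congr 1
    apply filter_congr
    intro k _
    exact forall_congr' fun i => side_iff η hη hη1 (σ i) (hσ i) _ (Nat.prime_nth_prime _).pos _
  rw [hcount] at hb
  have hmod := hk₁ K (by
    have : (k₁ : ℝ) ≤ K := by linarith
    exact_mod_cast this) c₀ σ hσ
  -- the error term
  have herr : C₁ * ((K : ℝ) ^ (1 / 2 + 1 / 8 : ℝ) * √(1 + Real.log N)) ≤ ε / 4 * K := by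
    have r1 : √(1 + Real.log N) ≤ 2 * Real.log N ^ (1 / 2 : ℝ) := by
      rw [← Real.sqrt_eq_rpow]
      have : 1 + Real.log N ≤ 4 * Real.log N := by linarith
      calc √(1 + Real.log N) ≤ √(4 * Real.log N) := Real.sqrt_le_sqrt this
        _ = 2 * √(Real.log N) := by
            rw [Real.sqrt_mul (by norm_num), show (4 : ℝ) = 2 ^ 2 by norm_num, Real.sqrt_sq (by norm_num)]
    have r2 : Real.log N ^ (3 / 4 : ℝ) ≤ (K : ℝ) ^ (3 / 8 : ℝ) := by
      calc Real.log N ^ (3 / 4 : ℝ) = (Real.log N ^ 2) ^ (3 / 8 : ℝ) := by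
            rw [← Real.rpow_natCast, ← Real.rpow_mul (by linarith)]
            norm_num
        _ ≤ _ := Real.rpow_le_rpow (by positivity) hK1 (by norm_num)
    have r3 : Real.log N ^ (1 / 2 : ℝ) * Real.log N ^ (1 / 4 : ℝ) = Real.log N ^ (3 / 4 : ℝ) := by
      rw [← Real.rpow_add (by linarith)]
      norm_num
    have r4 : (K : ℝ) = (K : ℝ) ^ (1 / 2 + 1 / 8 : ℝ) * (K : ℝ) ^ (3 / 8 : ℝ) := by
      rw [← Real.rpow_add hK0]
      norm_num
    have r5 : C₁ * √(1 + Real.log N) ≤ ε / 4 * (K : ℝ) ^ (3 / 8 : ℝ) := by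
      have r6 : 4 * C₁ * 2 / ε * Real.log N ^ (1 / 2 : ℝ) ≤ Real.log N ^ (1 / 2 : ℝ) * Real.log N ^ (1 / 4 : ℝ) := by
        rw [mul_comm]
        exact mul_le_mul_of_nonneg_left q3 (by positivity)
      rw [r3] at r6
      have r7 := r6.trans r2
      have r8 : C₁ * (2 * Real.log N ^ (1 / 2 : ℝ)) = ε / 4 * (4 * C₁ * 2 / ε * Real.log N ^ (1 / 2 : ℝ)) := by field_simp
      calc C₁ * √(1 + Real.log N) ≤ C₁ * (2 * Real.log N ^ (1 / 2 : ℝ)) := mul_le_mul_of_nonneg_left r1 (by linarith)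
        _ = _ := r8
        _ ≤ _ := mul_le_mul_of_nonneg_left r7 (by positivity)
    calc C₁ * ((K : ℝ) ^ (1 / 2 + 1 / 8 : ℝ) * √(1 + Real.log N)) =
          (K : ℝ) ^ (1 / 2 + 1 / 8 : ℝ) * (C₁ * √(1 + Real.log N)) := by ring
      _ ≤ (K : ℝ) ^ (1 / 2 + 1 / 8 : ℝ) * (ε / 4 * (K : ℝ) ^ (3 / 8 : ℝ)) := mul_le_mul_of_nonneg_left r5 (by positivity)
      _ = ε / 4 * ((K : ℝ) ^ (1 / 2 + 1 / 8 : ℝ) * (K : ℝ) ^ (3 / 8 : ℝ)) := by ring
      _ = ε / 4 * K := by rw [← r4]
  have e2 : (k₁ : ℝ) ≤ ε / 4 * K := by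
    have h4 : (4 * k₁ / ε : ℝ) ≤ K := by linarith
    rw [div_le_iff₀ hε] at h4
    linarith
  have e3 : (1 / 4 - η) ^ m ≤ 1 := pow_le_one₀ (by linarith) (by linarith)
  have e4 : ((1 / 4 - η) ^ m - ε / 4) * k₁ ≤ ε / 4 * K := by nlinarith
  have hb2 := (abs_le.1 hb).1
  nlinarith

/-- **(1)** Let `m ≥ 1` and `δ > 0`. There are `θ > 0` and `C` such that for all finite families `y i`, `i ∈ s`, of residues
modulo any `q` whose Fourier coefficients at the nonzero frequencies are at most `|s| / (Z (42 + 3 log q))`, where `0 < Z ≤ q`,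
and for ALL polynomials `P ∈ ℤ[T]`, almost all the least residues `v = y_i`, up to a proportion of at most `C Z ^ (-θ)`,
have the following property, with `a = P(v)`: for every `K ≤ Z ^ θ` and every product of `m`
intervals, the number of the `k < K` such that the angles of `S(a, 1; p)` at the `m` consecutive primes with the numbers
`k, ..., k + m - 1` are in the intervals differs from the expected number (the sum over `k < K` of the product of the
proportions, over the residues `t` modulo the primes, for the angles of `S(P(t), 1; p)`) by at most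
`C K ^ (1 / 2 + δ) (1 + log Z) ^ (1 / 2)`.

Moreover, there is `θ > 0` such that for `0 ≤ η ≤ 1 / 4`, `ε > 0`, `κ ≠ 0` and all large `Z` the following holds for all such
families and all integers `c₀`. For almost all the members, up to a proportion of at most `Z ^ (-θ)`, with `a = c₀ + κ y_i`,
every pattern of `m` signs occurs for the sums `S(a, 1; p)` at `m` consecutive primes, with sums of absolute value greater
than `η p ^ (1 / 2)`, for at least `((1 / 4 - η) ^ m - ε) K` of the indices `k < K`, for all `K` with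
`(log Z) ^ 2 ≤ K ≤ Z ^ θ`.

**(2)**, **(3)** Examples. All the Fourier coefficients at nonzero frequencies are at most `|s| / K` for the following families
of residues modulo primes `p` (all large primes in (2)), for ALL `K ≥ 1`:
* the quotients `j / r` of the integers `0 ≤ j < S` by the primes `r ≤ R`, if `K log ^ 4 p ≤ R < p` and `R ^ 2 ≤ S`; thus
  (1) with `Z = log ^ B p` applies to such explicit sets with only `log ^ (3 B + 20) p` members;
* the cosets of all subgroups of the multiplicative group of an order of at least `5 p ^ (3/8) K ^ 3`;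
* the residues `a b + g(a) + k(b)`, `a ∈ A`, `b ∈ B`, for arbitrary sets with `|A| |B| ≥ p K ^ 2` and arbitrary
  functions `g` and `k`;
* the values `f(n)`, `0 ≤ n < x`, of all integer polynomials of degree `d` whose leading coefficient is not divisible by
  `p`, if `p ≥ C K ^ C` and `x ^ d ≥ C K ^ C p`, where `C` depends on `d`.
In the last three examples `K`, and thus `Z`, can be a power of `p`. -/
theorem result :
    (∀ m : ℕ, 1 ≤ m →
      (∀ δ : ℝ, 0 < δ → ∃ θ C : ℝ, 0 < θ ∧ 0 < C ∧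
        ∀ (ι : Type) (q : ℕ) [NeZero q] (s : Finset ι) (y : ι → ZMod q) (Z : ℝ), 0 < Z → Z ≤ q →
        Flat q (1 / (Z * (42 + 3 * Real.log q))) s y → ∀ P : ℤ[X],
        Almost s y (C * Z ^ (-θ)) (fun v => ∀ K : ℕ, (K : ℝ) ≤ Z ^ θ →
          ∀ I : Fin m → Set ℝ, (∀ i, (I i).OrdConnected) →
            |(boxCount I K (P.eval (v : ℤ)) : ℝ) - boxModel P I K| ≤
              C * ((K : ℝ) ^ (1 / 2 + δ) * √(1 + Real.log Z)))) ∧
      (∃ θ : ℝ, 0 < θ ∧ ∀ η ε : ℝ, 0 ≤ η → η ≤ 1 / 4 → 0 < ε → ∀ κ : ℤ, κ ≠ 0 → ∃ Z₀ : ℕ,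
        ∀ (ι : Type) (q : ℕ) [NeZero q] (s : Finset ι) (y : ι → ZMod q) (Z : ℝ), Z₀ ≤ Z → Z ≤ q →
        Flat q (1 / (Z * (42 + 3 * Real.log q))) s y → ∀ c₀ : ℤ,
        Almost s y (Z ^ (-θ)) (fun v => ∀ K : ℕ, Real.log Z ^ 2 ≤ K → (K : ℝ) ≤ Z ^ θ →
          ∀ σ : Fin m → ℝ, (∀ i, σ i = 1 ∨ σ i = -1) →
            ((1 / 4 - η) ^ m - ε) * K ≤ signCount m σ η K (c₀ + κ * (v : ℕ))))) ∧
    (∃ P₀ : ℕ, ∀ p : ℕ, P₀ ≤ p → ∀ [Fact p.Prime] (K : ℝ), 1 ≤ K →
      (∀ R S : ℕ, K * Real.log p ^ 4 ≤ R → R < p → R ^ 2 ≤ S →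
        Flat p (1 / K) (((Icc 1 R).filter Nat.Prime) ×ˢ range S)
          (fun z => ((z.2 : ℕ) : ZMod p) * ((z.1 : ℕ) : ZMod p)⁻¹)) ∧
      (∀ (H : Subgroup (ZMod p)ˣ) (s : Finset (ZMod p)ˣ), (∀ u, u ∈ s ↔ u ∈ H) →
        5 * (p : ℝ) ^ (3 / 8 : ℝ) * K ^ 3 ≤ s.card → ∀ x : ZMod p, x ≠ 0 → Flat p (1 / K) s (fun u => x * (u : ZMod p))) ∧
      (∀ (A B : Finset (ZMod p)) (g k : ZMod p → ZMod p), (p : ℝ) * K ^ 2 ≤ A.card * B.card →
        Flat p (1 / K) (A ×ˢ B) (fun z => z.1 * z.2 + g z.1 + k z.2))) ∧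
    (∀ d : ℕ, 1 ≤ d → ∃ C : ℕ, ∀ p : ℕ, ∀ [Fact p.Prime] (f : Polynomial ℤ), f.natDegree = d →
      ¬ (p : ℤ) ∣ f.leadingCoeff → ∀ K : ℝ, 1 ≤ K → C * K ^ C ≤ p → ∀ x : ℕ, C * K ^ C * p ≤ (x : ℝ) ^ d →
      Flat p (1 / K) (range x) (fun n => ((f.eval (n : ℤ) : ℤ) : ZMod p))) := by
  refine ⟨?_, ?_, fun d hd => ?_⟩
  · refine fun m hm => ⟨fun δ hδ => ?_, signs m hm⟩
    obtain ⟨κ, C, h1, _, h3, H⟩ := boxes m hm δ hδ
    exact ⟨κ, C, h1, by linarith, H⟩
  · obtain ⟨P₀, h0⟩ := Pool.Agent.N384.MQ.flatK_quot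
    exact ⟨P₀, fun p hp _ K hK => ⟨fun R S => h0 p hp K hK R S,
      fun H s hs hc x hx => Pool.Agent.N384.MQ.flatK_coset p H s hs K hK hc x hx,
      fun A B g k hAB => Pool.Agent.N384.MQ.flatK_prod p A B g k K hK hAB⟩⟩
  · exact Pool.Agent.N384.MQ.flatK_poly d hd

end Pool.Agent.Results.MP_6ea630_nt.ResidueFamilies
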