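import Pool.Agent.N368.TS.Wel
import Pool.Agent.TH894.NF3

/-!
# The joint distribution of the angles of several Kloosterman sums at `s` consecutive primes: all boxes, with square-root
error against the finite-field model, and all patterns of signs, for almost all members of families with `r` parameters
along thin sequences of parameter vectors

From Mathlib: `⌊y⌋`: the integer part of `y`; `Nat.nth Nat.Prime k`: the prime with the index `k`, starting with `k = 0`;
`Set.OrdConnected`: intervals; `MvPolynomial.eval t f`: the value of the polynomial `f` at `t`.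

Method: the vectors `(⌊P₁(n)⌋, ..., ⌊P_r(n)⌋)`, `N < n ≤ 2N`, are uniformly distributed in the residue classes modulo all
integers up to a power of `N`, with a power saving (`Pool.Agent.N666.VE`, `Pool.Agent.N666.TM`). The high moments of sums
of functions of the residues modulo coprime integers and the passage to all boxes: `Pool.Agent.N368.TS`. The signs of a
single sum in the finite-field model are from the starting files (`Pool.Agent.TH894.NF3`); for linearly independent forms
the joint proportions are the products.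
-/

set_option autoImplicit false

namespace Pool.Agent.Results.MP_6ea630_nt.ThinParameterVectors

open Finset Filter

/-- The function `∑ t ∈ F, a t * x ^ t` has the leading exponent `c`, which is positive and not an integer, with a
positive coefficient. -/
def Admissible (F : Finset ℝ) (a : ℝ → ℝ) (c : ℝ) : Prop :=
  c ∈ F ∧ (∀ t ∈ F, t ≤ c) ∧ 0 < c ∧ (∀ m : ℕ, c ≠ m) ∧ 0 < a c

/-- The vector of the integer parts of the values at `n`. -/
noncomputable def values {r : ℕ} (F : Fin r → Finset ℝ) (a : Fin r → ℝ → ℝ) (n : ℕ) : Fin r → ℤ :=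
  fun l => ⌊∑ t ∈ F l, a l t * (n : ℝ) ^ t⌋

/-- The Kloosterman sum `S(a, 1; p)`. -/
noncomputable def kloosterman (p : ℕ) (a : ℤ) : ℝ :=
  ∑ x ∈ Ico 1 p, Real.cos (2 * Real.pi * ((((a : ZMod p) * (x : ZMod p) + (x : ZMod p)⁻¹).val : ℕ) : ℝ) / (p : ℝ))

/-- The angle `θ / π` in `[0, 1]`, where `2 p ^ (1 / 2) cos θ = S(a, 1; p)`, and `1 / 2` if `p` divides `a`. -/
noncomputable def angle (p : ℕ) (a : ℤ) : ℝ :=
  if (p : ℤ) ∣ a then 1 / 2 else Real.arccos (kloosterman p a / (2 * √(p : ℝ))) / Real.pi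

open Classical in
/-- The number of the indices `k < K` such that for all `i` and `j` the angle of `S(a j, 1; p)` at the prime `p` with the
index `k + i` is in `I i j` (the primes are numbered from `0`). -/
noncomputable def boxCount {s m : ℕ} (I : Fin s → Fin m → Set ℝ) (K : ℕ) (a : Fin m → ℤ) : ℕ :=
  ((range K).filter (fun k => ∀ (i : Fin s) (j : Fin m), angle (Nat.nth Nat.Prime (k + i)) (a j) ∈ I i j)).card

open Classical in
/-- The proportion of the vectors of residues `t` modulo `p` such that for all `j` the angle of `S(A j(t), 1; p)` is in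
`S j`. -/
noncomputable def proportion {r m : ℕ} (A : Fin m → MvPolynomial (Fin r) ℤ) (p : ℕ) (S : Fin m → Set ℝ) : ℝ :=
  ((Fintype.piFinset (fun _ : Fin r => range p)).filter
    (fun t => ∀ j, angle p (MvPolynomial.eval (fun l => (t l : ℤ)) (A j)) ∈ S j)).card / (p : ℝ) ^ r

/-- The expected number: the sum over `k < K` of the product of the proportions at the `s` primes. -/
noncomputable def boxModel {r s m : ℕ} (A : Fin m → MvPolynomial (Fin r) ℤ) (I : Fin s → Fin m → Set ℝ) (K : ℕ) : ℝ :=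
  ∑ k ∈ range K, ∏ i : Fin s, proportion A (Nat.nth Nat.Prime (k + i)) (I i)

open Classical in
/-- The number of the indices `k < K` such that for all `i` and `j` the prime `p` with the index `k + i` does not divide
`a j` and `σ i j S(a j, 1; p) > η p ^ (1 / 2)`. -/
noncomputable def signCount {s m : ℕ} (σ : Fin s → Fin m → ℝ) (η : ℝ) (K : ℕ) (a : Fin m → ℤ) : ℕ :=
  ((range K).filter (fun k => ∀ (i : Fin s) (j : Fin m), ¬ ((Nat.nth Nat.Prime (k + i) : ℕ) : ℤ) ∣ a j ∧
    η * √((Nat.nth Nat.Prime (k + i) : ℕ) : ℝ) < σ i j * kloosterman (Nat.nth Nat.Prime (k + i)) (a j))).card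

/-- the Kloosterman sum as a function on the residue classes -/
noncomputable def kz (p : ℕ) (z : ZMod p) : ℝ :=
  ∑ x ∈ Ico 1 p, Real.cos (2 * Real.pi * (((z * (x : ZMod p) + (x : ZMod p)⁻¹).val : ℕ) : ℝ) / (p : ℝ))

theorem k_eq (p : ℕ) (a : ℤ) : kloosterman p a = kz p (a : ZMod p) := rfl

open Classical in
/-- the angle as a function on the residue classes -/
noncomputable def az (p : ℕ) (z : ZMod p) : ℝ :=
  if z = 0 then 1 / 2 else Real.arccos (kz p z / (2 * √(p : ℝ))) / Real.pi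

theorem angle_az (p : ℕ) (a : ℤ) : angle p a = az p (a : ZMod p) := by
  unfold angle az
  rw [k_eq]
  by_cases h : (p : ℤ) ∣ a
  · rw [if_pos h, if_pos ((ZMod.intCast_zmod_eq_zero_iff_dvd a p).2 h)]
  · rw [if_neg h, if_neg (fun h2 => h ((ZMod.intCast_zmod_eq_zero_iff_dvd a p).1 h2))]

theorem angle_congr (p : ℕ) {a b : ℤ} (h : (p : ℤ) ∣ a - b) : angle p a = angle p b := by
  have e : (a : ZMod p) = (b : ZMod p) := by
    rw [← sub_eq_zero, ← Int.cast_sub, ZMod.intCast_zmod_eq_zero_iff_dvd]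
    exact h
  rw [angle_az, angle_az, e]

theorem eval_congr {r : ℕ} (f : MvPolynomial (Fin r) ℤ) (p : ℕ) {c d : Fin r → ℤ} (h : ∀ l, (p : ℤ) ∣ c l - d l) :
    (p : ℤ) ∣ MvPolynomial.eval c f - MvPolynomial.eval d f := by
  induction f using MvPolynomial.induction_on with
  | C z => simp
  | add f g hf hg =>
    rw [map_add, map_add]
    have e : MvPolynomial.eval c f + MvPolynomial.eval c g - (MvPolynomial.eval d f + MvPolynomial.eval d g) =
        (MvPolynomial.eval c f - MvPolynomial.eval d f) + (MvPolynomial.eval c g - MvPolynomial.eval d g) := by ring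
    rw [e]
    exact dvd_add hf hg
  | mul_X f i hf =>
    rw [map_mul, map_mul, MvPolynomial.eval_X, MvPolynomial.eval_X]
    have e : MvPolynomial.eval c f * c i - MvPolynomial.eval d f * d i =
        (MvPolynomial.eval c f - MvPolynomial.eval d f) * c i + MvPolynomial.eval d f * (c i - d i) := by ring
    rw [e]
    exact dvd_add (hf.mul_right _) ((h i).mul_left _)

/-- the interval of the angles with a given sign -/
noncomputable def side (η σ : ℝ) : Set ℝ :=
  if σ = 1 then Set.Iio (Real.arccos (η / 2) / Real.pi) else Set.Ioi (Real.arccos (-(η / 2)) / Real.pi)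

theorem side_oc (η σ : ℝ) : (side η σ).OrdConnected := by
  unfold side
  split_ifs
  · exact Set.ordConnected_Iio
  · exact Set.ordConnected_Ioi

theorem arccos_lt (y z : ℝ) (hz0 : -1 < z) (hz1 : z < 1) : (Real.arccos y < Real.arccos z ↔ z < y) ∧
    (Real.arccos z < Real.arccos y ↔ y < z) := by
  have h1 : ∀ u w : ℝ, -1 < u → u < 1 → u < w → Real.arccos w < Real.arccos u := by
    intro u w hu hu1 huw
    rcases le_or_gt w 1 with h | h
    · exact Real.strictAntiOn_arccos ⟨hu.le, hu1.le⟩ ⟨by linarith, h⟩ huw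
    · rw [Real.arccos_of_one_le h.le]
      exact Real.arccos_pos.2 hu1
  have h2 : ∀ u w : ℝ, -1 < u → u < 1 → w < u → Real.arccos u < Real.arccos w := by
    intro u w hu hu1 huw
    rcases le_or_gt (-1) w with h | h
    · exact Real.strictAntiOn_arccos ⟨h, by linarith⟩ ⟨hu.le, hu1.le⟩ huw
    · rw [Real.arccos_of_le_neg_one h.le]
      exact Real.strictAntiOn_arccos.injOn.ne_iff ⟨hu.le, hu1.le⟩ ⟨le_rfl, by norm_num⟩ |>.2 hu.ne' |>
        fun h3 => lt_of_le_of_ne (Real.arccos_le_pi u) (by rwa [Real.arccos_neg_one] at h3)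
  refine ⟨⟨fun h => ?_, h1 z y hz0 hz1⟩, ⟨fun h => ?_, h2 z y hz0 hz1⟩⟩
  · by_contra hcon
    push Not at hcon
    rcases hcon.eq_or_lt with h3 | h3
    · rw [h3] at h
      exact lt_irrefl _ h
    · have := h2 z y hz0 hz1 h3
      linarith
  · by_contra hcon
    push Not at hcon
    rcases hcon.eq_or_lt with h3 | h3
    · rw [h3] at h
      exact lt_irrefl _ h
    · have := h1 z y hz0 hz1 h3
      linarith

/-- the signs in terms of the angles -/
theorem side_iff (η : ℝ) (hη : 0 ≤ η) (hη1 : η ≤ 1 / 4) (σ : ℝ) (hσ : σ = 1 ∨ σ = -1) (p : ℕ) (hp : 0 < p)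
    (z : ZMod p) : az p z ∈ side η σ ↔ z ≠ 0 ∧ η * √(p : ℝ) < σ * kz p z := by
  have hp0 : (0 : ℝ) < p := by exact_mod_cast hp
  have hs : 0 < √(p : ℝ) := Real.sqrt_pos.2 hp0
  have hpi := Real.pi_pos
  unfold az side
  rcases hσ with h | h
  · rw [h, if_pos rfl, one_mul, Set.mem_Iio]
    by_cases h1 : z = 0
    · rw [if_pos h1]
      constructor
      · intro h2
        exfalso
        rw [lt_div_iff₀ hpi] at h2
        have h3 : Real.arccos (η / 2) ≤ Real.pi / 2 := Real.arccos_le_pi_div_two.2 (by linarith)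
        linarith
      · rintro ⟨h2, _⟩
        exact absurd h1 h2
    · rw [if_neg h1, div_lt_div_iff_of_pos_right hpi, (arccos_lt _ (η / 2) (by linarith) (by linarith)).1,
        lt_div_iff₀ (by positivity)]
      constructor
      · intro h2
        exact ⟨h1, by linarith⟩
      · rintro ⟨_, h2⟩
        linarith
  · have hne : ¬ ((-1 : ℝ) = 1) := by norm_num
    rw [h, if_neg hne, neg_one_mul, Set.mem_Ioi]
    by_cases h1 : z = 0
    · rw [if_pos h1]
      constructor
      · intro h2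
        exfalso
        rw [div_lt_iff₀ hpi] at h2
        have h3 := Real.arccos_neg (η / 2)
        have h4 : Real.arccos (η / 2) ≤ Real.pi / 2 := Real.arccos_le_pi_div_two.2 (by linarith)
        linarith
      · rintro ⟨h2, _⟩
        exact absurd h1 h2
    · rw [if_neg h1, div_lt_div_iff_of_pos_right hpi, (arccos_lt _ (-(η / 2)) (by linarith) (by linarith)).2,
        div_lt_iff₀ (by positivity)]
      constructor
      · intro h2
        exact ⟨h1, by linarith⟩
      · rintro ⟨_, h2⟩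
        linarith

open Classical in
/-- the proportion of a sign among the residue classes -/
theorem vert (η : ℝ) (hη : 0 ≤ η) (hη1 : η ≤ 1 / 4) (σ : ℝ) (hσ : σ = 1 ∨ σ = -1) (p : ℕ) (hp : p.Prime) [NeZero p] :
    1 / 4 - η - 1 / √(p : ℝ) - 1 / p ≤
      ((univ.filter (fun z : ZMod p => az p z ∈ side η σ)).card : ℝ) / p := by
  refine (Pool.Agent.TH894.NF.sg_prop η hη σ hσ p hp).trans (le_of_eq ?_)
  unfold Pool.Agent.TH894.NE.Pr
  rw [pow_one]
  congr 2
  apply card_bij (fun m _ => ((m 0 : ℕ) : ZMod p))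
  · intro m hm
    simp only [mem_filter, Pool.Agent.TH894.NE.mem_box] at hm
    rw [mem_filter]
    refine ⟨mem_univ _, ?_⟩
    rw [side_iff η hη hη1 σ hσ p hp.pos]
    refine ⟨?_, hm.2.2⟩
    rw [Ne, ZMod.natCast_eq_zero_iff]
    exact hm.2.1
  · intro m hm m' hm' hmm
    simp only [mem_filter, Pool.Agent.TH894.NE.mem_box] at hm hm'
    have h1 := congrArg ZMod.val hmm
    rw [ZMod.val_cast_of_lt (hm.1 0), ZMod.val_cast_of_lt (hm'.1 0)] at h1
    funext i
    rw [Subsingleton.elim i 0]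
    exact h1
  · intro z hz
    rw [mem_filter, side_iff η hη hη1 σ hσ p hp.pos] at hz
    refine ⟨fun _ => z.val, ?_, ZMod.natCast_zmod_val z⟩
    simp only [mem_filter, Pool.Agent.TH894.NE.mem_box]
    refine ⟨fun _ => ZMod.val_lt z, ?_, ?_⟩
    · rw [← ZMod.natCast_eq_zero_iff, ZMod.natCast_zmod_val]
      exact hz.2.1
    · have h2 := hz.2.2
      have h3 : Pool.Agent.TH894.NF.kls p z.val = kz p z := by
        unfold Pool.Agent.TH894.NF.kls kz
        rw [ZMod.natCast_zmod_val]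
      rw [h3]
      exact h2

/-- the number of the points over a set for a surjective homomorphism -/
theorem fib {V W : Type*} [AddCommGroup V] [AddCommGroup W] [Fintype V] [Fintype W] [DecidableEq W] (f : V →+ W)
    (hf : Function.Surjective f) (c : W) (S : Finset W) :
    (univ.filter (fun v => c + f v ∈ S)).card * Fintype.card W = Fintype.card V * S.card := by
  have h0 : ∀ w : W, (univ.filter (fun v => f v = w)).card = (univ.filter (fun v => f v = 0)).card := fun w =>
    AddMonoidHom.card_fiber_eq_of_mem_range f (hf w) (hf 0)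
  have h1 : (univ.filter (fun v => c + f v ∈ S)).card = S.card * (univ.filter (fun v => f v = 0)).card := by
    rw [card_eq_sum_card_fiberwise (s := univ.filter (fun v => c + f v ∈ S)) (f := fun v => c + f v) (t := S)
      (fun v hv => (mem_filter.1 (mem_coe.1 hv)).2), ← smul_eq_mul, ← sum_const]
    refine sum_congr rfl fun w hw => ?_
    rw [← h0 (w - c), filter_filter]
    congr 1
    apply filter_congr
    intro v _
    constructor
    · rintro ⟨_, h⟩
      rw [← h]
      abel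
    · intro h
      have h2 : c + f v = w := by
        rw [h]
        abel
      exact ⟨by rw [h2]; exact hw, h2⟩
  have h2 : Fintype.card V = Fintype.card W * (univ.filter (fun v => f v = 0)).card := by
    rw [← card_univ, card_eq_sum_card_fiberwise (f := f) (t := univ) (fun v _ => mem_univ _), ← card_univ (α := W),
      ← smul_eq_mul, ← sum_const]
    exact sum_congr rfl fun w _ => h0 w
  rw [h1, h2]
  ring

/-- the affine forms -/
noncomputable def lin {r m : ℕ} (c₀ : Fin m → ℤ) (M : Fin m → Fin r → ℤ) (j : Fin m) : MvPolynomial (Fin r) ℤ :=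
  MvPolynomial.C (c₀ j) + ∑ l, MvPolynomial.C (M j l) * MvPolynomial.X l

theorem lin_eval {r m : ℕ} (c₀ : Fin m → ℤ) (M : Fin m → Fin r → ℤ) (j : Fin m) (t : Fin r → ℤ) :
    MvPolynomial.eval t (lin c₀ M j) = c₀ j + ∑ l, M j l * t l := by
  unfold lin
  simp only [map_add, map_sum, map_mul, MvPolynomial.eval_C, MvPolynomial.eval_X]

/-- a right inverse up to a factor -/
theorem right_inv {r m : ℕ} (M : Fin m → Fin r → ℤ) (hM : LinearIndependent ℤ M) :
    ∃ (D : ℤ) (R : Fin r → Fin m → ℤ), D ≠ 0 ∧ ∀ j k, ∑ l, M j l * R l k = if j = k then D else 0 := by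
  obtain ⟨A, hA⟩ : ∃ A : Matrix (Fin m) (Fin r) ℤ, A = Matrix.of M := ⟨_, rfl⟩
  refine ⟨(A * A.transpose).det, fun l k => (A.transpose * (A * A.transpose).adjugate) l k, ?_, ?_⟩
  · intro h0
    obtain ⟨v, hv0, hv⟩ := Matrix.exists_vecMul_eq_zero_iff.2 h0
    apply hv0
    have h1 : Matrix.vecMul v A ⬝ᵥ Matrix.vecMul v A = 0 := by
      have h2 : Matrix.vecMul (Matrix.vecMul v A) A.transpose = 0 := by
        rw [Matrix.vecMul_vecMul]
        exact hv
      have h3 : Matrix.vecMul (Matrix.vecMul v A) A.transpose ⬝ᵥ v = 0 := by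
        rw [h2, zero_dotProduct]
      rw [Matrix.vecMul_transpose, dotProduct_comm, Matrix.dotProduct_mulVec] at h3
      exact h3
    have h2 : Matrix.vecMul v A = 0 := dotProduct_self_eq_zero.1 h1
    have h3 := Fintype.linearIndependent_iff.1 hM v (by
      funext l
      have h4 := congrFun h2 l
      rw [Matrix.vecMul, dotProduct] at h4
      rw [Finset.sum_apply]
      simp only [Pi.smul_apply, smul_eq_mul, Pi.zero_apply] at h4 ⊢
      rw [hA] at h4
      exact h4)
    funext i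
    exact h3 i
  · intro j k
    have h1 : A * (A.transpose * (A * A.transpose).adjugate) = (A * A.transpose).det • (1 : Matrix (Fin m) (Fin m) ℤ) := by
      rw [← Matrix.mul_assoc, Matrix.mul_adjugate]
    have h2 := congrFun (congrFun h1 j) k
    rw [Matrix.mul_apply, Matrix.smul_apply, Matrix.one_apply, smul_eq_mul, mul_ite, mul_one, mul_zero] at h2
    rw [← h2, hA]
    rfl

open Classical in
/-- the proportions for independent forms are the products -/
theorem prop_lin {r m : ℕ} (c₀ : Fin m → ℤ) (M : Fin m → Fin r → ℤ) (D : ℤ) (R : Fin r → Fin m → ℤ)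
    (hR : ∀ j k, ∑ l, M j l * R l k = if j = k then D else 0) (p : ℕ) (hp : p.Prime) [NeZero p] (hD : ¬ (p : ℤ) ∣ D)
    (S : Fin m → Set ℝ) :
    proportion (lin c₀ M) p S = ∏ j, ((univ.filter (fun z : ZMod p => az p z ∈ S j)).card : ℝ) / p := by
  have : Fact p.Prime := ⟨hp⟩
  have hD0 : (D : ZMod p) ≠ 0 := by
    rw [Ne, ZMod.intCast_zmod_eq_zero_iff_dvd]
    exact hD
  obtain ⟨f, hf⟩ : ∃ f : (Fin r → ZMod p) →+ (Fin m → ZMod p), ∀ x j, f x j = ∑ l, (M j l : ZMod p) * x l :=
    ⟨AddMonoidHom.mk' (fun x j => ∑ l, (M j l : ZMod p) * x l) (by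
      intro x y
      funext j
      simp only [Pi.add_apply, mul_add, sum_add_distrib]), fun x j => rfl⟩
  have hsurj : Function.Surjective f := by
    intro y
    refine ⟨fun l => ∑ k, (R l k : ZMod p) * (y k / D), ?_⟩
    funext j
    rw [hf]
    calc ∑ l, (M j l : ZMod p) * ∑ k, (R l k : ZMod p) * (y k / D) =
          ∑ k, (∑ l, (M j l : ZMod p) * (R l k : ZMod p)) * (y k / D) := by
          simp only [mul_sum]
          rw [sum_comm]
          refine sum_congr rfl fun k _ => ?_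
          rw [Finset.sum_mul]
          refine sum_congr rfl fun l _ => ?_
          ring
      _ = ∑ k, (if j = k then (D : ZMod p) else 0) * (y k / D) := by
          refine sum_congr rfl fun k _ => ?_
          congr 1
          have h1 := congrArg (fun z : ℤ => (z : ZMod p)) (hR j k)
          simp only [Int.cast_sum, Int.cast_mul] at h1
          rw [h1]
          split_ifs <;> simp
      _ = y j := by
          simp only [ite_mul, zero_mul, sum_ite_eq, mem_univ, if_true]
          field_simp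
  obtain ⟨T, hT⟩ : ∃ T : Finset (Fin m → ZMod p), T = Fintype.piFinset
    (fun j => univ.filter (fun z : ZMod p => az p z ∈ S j)) := ⟨_, rfl⟩
  have hfib := fib f hsurj (fun j => (c₀ j : ZMod p)) T
  have hTc : T.card = ∏ j, (univ.filter (fun z : ZMod p => az p z ∈ S j)).card := by
    rw [hT, Fintype.card_piFinset]
  have hcard : ((Fintype.piFinset (fun _ : Fin r => range p)).filter
      (fun t => ∀ j, angle p (MvPolynomial.eval (fun l => (t l : ℤ)) (lin c₀ M j)) ∈ S j)).card =
      (univ.filter (fun v : Fin r → ZMod p => (fun j => (c₀ j : ZMod p)) + f v ∈ T)).card := by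
    have hmem : ∀ t : Fin r → ℕ, (∀ j, angle p (MvPolynomial.eval (fun l => (t l : ℤ)) (lin c₀ M j)) ∈ S j) ↔
        (fun j => (c₀ j : ZMod p)) + f (fun l => (t l : ZMod p)) ∈ T := by
      intro t
      rw [hT, Fintype.mem_piFinset]
      refine forall_congr' fun j => ?_
      rw [mem_filter, angle_az, lin_eval, Pi.add_apply, hf]
      push_cast
      simp only [mem_univ, true_and]
    apply card_bij (fun t _ => fun l => ((t l : ℕ) : ZMod p))
    · intro t ht
      rw [mem_filter] at ht ⊢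
      exact ⟨mem_univ _, (hmem t).1 ht.2⟩
    · intro t ht t' ht' h
      rw [mem_filter, Fintype.mem_piFinset] at ht ht'
      funext l
      have h1 := congrArg ZMod.val (congrFun h l)
      rwa [ZMod.val_cast_of_lt (mem_range.1 (ht.1 l)), ZMod.val_cast_of_lt (mem_range.1 (ht'.1 l))] at h1
    · intro v hv
      have hvv : (fun l => (((v l).val : ℕ) : ZMod p)) = v := by
        funext l
        exact ZMod.natCast_zmod_val (v l)
      refine ⟨fun l => (v l).val, ?_, hvv⟩
      rw [mem_filter] at hv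
      rw [mem_filter, Fintype.mem_piFinset]
      refine ⟨fun l => mem_range.2 (ZMod.val_lt _), ?_⟩
      rw [hmem]
      rw [hvv]
      exact hv.2
  have hpr : (0 : ℝ) < p := by exact_mod_cast hp.pos
  unfold proportion
  rw [hcard, prod_div_distrib, prod_const, card_univ, Fintype.card_fin, div_eq_div_iff (by positivity) (by positivity)]
  rw [Fintype.card_pi, Fintype.card_pi, prod_const, prod_const, ZMod.card, card_univ, card_univ, Fintype.card_fin,
    Fintype.card_fin, hTc] at hfib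
  have h5 := congrArg (fun z : ℕ => (z : ℝ)) hfib
  push_cast at h5
  rw [h5]
  ring

open Pool.Agent.TH894.NF (pow_diff)

/-- the model for the signs -/
theorem model_ge {r m : ℕ} (s : ℕ) (hs : 1 ≤ s) (hm : 1 ≤ m) (η ε : ℝ) (hη : 0 ≤ η) (hη1 : η ≤ 1 / 4) (hε : 0 < ε)
    (M : Fin m → Fin r → ℤ) (hM : LinearIndependent ℤ M) :
    ∃ k₁ : ℕ, ∀ n : ℕ, k₁ ≤ n → ∀ (c₀ : Fin m → ℤ) (σ : Fin s → Fin m → ℝ), (∀ i j, σ i j = 1 ∨ σ i j = -1) →
      ((1 / 4 - η) ^ (s * m) - ε / 4) * (n - k₁) ≤ boxModel (lin c₀ M) (fun i j => side η (σ i j)) n := by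
  obtain ⟨D, R, hD, hR⟩ := right_inv M hM
  obtain ⟨u, hu⟩ : ∃ u : ℕ, u = s * m := ⟨_, rfl⟩
  have hu1 : 1 ≤ u := by rw [hu]; exact Nat.one_le_iff_ne_zero.2 (Nat.mul_ne_zero (by omega) (by omega))
  have hsr : (1 : ℝ) ≤ u := by exact_mod_cast hu1
  obtain ⟨ε₁, hε₁⟩ : ∃ ε₁, ε₁ = ε / (4 * u) := ⟨_, rfl⟩
  have hε₁0 : 0 < ε₁ := by rw [hε₁]; positivity
  obtain ⟨k₁, hk₁⟩ := exists_nat_ge ((2 / ε₁) ^ 2 + 2 / ε₁ + 1 + D.natAbs)
  refine ⟨k₁, fun n hge c₀ σ hσ => ?_⟩
  rw [← hu]
  have hnn : ∀ (p : ℕ) (S : Fin m → Set ℝ), 0 ≤ proportion (lin c₀ M) p S := by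
    intro p S
    unfold proportion
    positivity
  unfold boxModel
  have h1 : ∀ k ∈ range n, 0 ≤ ∏ i : Fin s, proportion (lin c₀ M) (Nat.nth Nat.Prime (k + i)) (fun j => side η (σ i j)) :=
    fun k _ => prod_nonneg fun i _ => hnn _ _
  have hsub : Ico k₁ n ⊆ range n := by
    intro k hk
    rw [mem_Ico] at hk
    exact mem_range.2 hk.2
  refine le_trans ?_ (sum_le_sum_of_subset_of_nonneg hsub fun k hk _ => h1 k hk)
  have h2 : ∀ k ∈ Ico k₁ n, (1 / 4 - η) ^ u - ε / 4 ≤
      ∏ i : Fin s, proportion (lin c₀ M) (Nat.nth Nat.Prime (k + i)) (fun j => side η (σ i j)) := by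
    intro k hk
    rw [mem_Ico] at hk
    by_cases hsm : 1 / 4 - η - ε₁ < 0
    · have h3 := h1 k (mem_range.2 hk.2)
      have h4 := pow_diff (1 / 4 - η) 0 le_rfl (by linarith) (by linarith) u
      rw [zero_pow (by omega)] at h4
      have h5 : (u : ℝ) * (1 / 4 - η - 0) ≤ u * ε₁ := mul_le_mul_of_nonneg_left (by linarith) (by linarith)
      have h6 : (u : ℝ) * ε₁ = ε / 4 := by rw [hε₁]; field_simp
      linarith
    · push Not at hsm
      have h4 := pow_diff (1 / 4 - η) (1 / 4 - η - ε₁) hsm (by linarith) (by linarith) u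
      have h6 : (u : ℝ) * (1 / 4 - η - (1 / 4 - η - ε₁)) = ε / 4 := by rw [hε₁]; field_simp; ring
      rw [h6] at h4
      refine h4.trans ?_
      calc (1 / 4 - η - ε₁) ^ u = ∏ _i : Fin s, (1 / 4 - η - ε₁) ^ m := by
            rw [prod_const, card_univ, Fintype.card_fin, ← pow_mul, hu, mul_comm]
        _ ≤ _ := by
          apply prod_le_prod (fun i _ => pow_nonneg hsm _)
          intro i _
          have hpr : (Nat.nth Nat.Prime (k + i)).Prime := Nat.prime_nth_prime _
          have h9 : k₁ ≤ Nat.nth Nat.Prime (k + i) := by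
            have : k + i ≤ Nat.nth Nat.Prime (k + i) := (Nat.nth_strictMono Nat.infinite_setOfPred_prime).id_le (k + i)
            omega
          have h10 : (k₁ : ℝ) ≤ (Nat.nth Nat.Prime (k + i) : ℕ) := by exact_mod_cast h9
          have hDn : (0 : ℝ) ≤ D.natAbs := Nat.cast_nonneg _
          have hnd : ¬ ((Nat.nth Nat.Prime (k + i) : ℕ) : ℤ) ∣ D := by
            intro hd
            have h11 : Nat.nth Nat.Prime (k + i) ≤ D.natAbs :=
              Nat.le_of_dvd (Int.natAbs_pos.2 hD) (Int.natCast_dvd.1 hd)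
            have h12 : ((Nat.nth Nat.Prime (k + i) : ℕ) : ℝ) ≤ D.natAbs := by exact_mod_cast h11
            have h13 : 0 ≤ (2 / ε₁) ^ 2 := sq_nonneg _
            have h14 : 0 < 2 / ε₁ := by positivity
            linarith
          have : NeZero (Nat.nth Nat.Prime (k + i)) := ⟨hpr.ne_zero⟩
          rw [prop_lin c₀ M D R hR _ hpr hnd]
          calc (1 / 4 - η - ε₁) ^ m = ∏ _j : Fin m, (1 / 4 - η - ε₁) := by
                rw [prod_const, card_univ, Fintype.card_fin]
            _ ≤ _ := by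
              apply prod_le_prod (fun j _ => hsm)
              intro j _
              refine le_trans ?_ (vert η hη hη1 (σ i j) (hσ i j) _ hpr)
              obtain ⟨P, hP⟩ : ∃ P : ℝ, P = (Nat.nth Nat.Prime (k + i) : ℕ) := ⟨_, rfl⟩
              rw [← hP] at h10 ⊢
              have h11 : (2 / ε₁) ^ 2 + 2 / ε₁ + 1 ≤ P := by linarith
              have h12 : 0 < 2 / ε₁ := by positivity
              have h13 : 1 / P ≤ ε₁ / 2 := by
                rw [div_le_div_iff₀ (by nlinarith) (by norm_num)]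
                have : 2 / ε₁ ≤ P := by nlinarith [sq_nonneg (2 / ε₁)]
                rw [div_le_iff₀ hε₁0] at this
                linarith
              have h14 : 2 / ε₁ ≤ √P := Real.le_sqrt_of_sq_le (by nlinarith)
              have h15 : 1 / √P ≤ ε₁ / 2 := by
                rw [div_le_div_iff₀ (by linarith) (by norm_num)]
                rw [div_le_iff₀ hε₁0] at h14
                linarith
              linarith
  calc ((1 / 4 - η) ^ u - ε / 4) * (n - k₁) = ∑ _k ∈ Ico k₁ n, ((1 / 4 - η) ^ u - ε / 4) := by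
        rw [sum_const, Nat.card_Ico, nsmul_eq_mul, Nat.cast_sub hge]
        ring
    _ ≤ _ := sum_le_sum h2

open Classical in
theorem boxes (r m s : ℕ) (hr : 1 ≤ r) (hs : 1 ≤ s) (F : Fin r → Finset ℝ) (a : Fin r → ℝ → ℝ) (c : Fin r → ℝ)
    (h : ∀ l, Admissible (F l) (a l) (c l)) (hc : Function.Injective c) (δ : ℝ) (hδ : 0 < δ) :
    ∃ κ C : ℝ, 0 < κ ∧ 1 ≤ C ∧ ∀ (A : Fin m → MvPolynomial (Fin r) ℤ) (N : ℕ), 1 ≤ N →
      (((Ioc N (2 * N)).filter (fun n : ℕ => ¬ ∀ K : ℕ, (K : ℝ) ≤ (N : ℝ) ^ κ →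
        ∀ I : Fin s → Fin m → Set ℝ, (∀ i j, (I i j).OrdConnected) →
          |(boxCount I K (fun j => MvPolynomial.eval (values F a n) (A j)) : ℝ) - boxModel A I K| ≤
              C * ((K : ℝ) ^ (1 / 2 + δ) * √(1 + Real.log N)))).card : ℝ) ≤ C * (N : ℝ) ^ (1 - κ) := by
  have : Nonempty (Fin r) := ⟨⟨0, hr⟩⟩
  obtain ⟨⟨ρ, σ, C₀, hv⟩, -⟩ := Pool.Agent.N368.TS.fl_pev h hc
  obtain ⟨κ, C, h1, h2, h3, H⟩ := Pool.Agent.N368.TS.consecutive2 hv (Fin m) s hs δ hδ
  refine ⟨κ, C, h1, h3, fun A N hN => ?_⟩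
  obtain ⟨E, hE1, hE2⟩ := H (fun p t j => angle p (MvPolynomial.eval t (A j))) (by
    intro p c d hcd
    funext j
    exact angle_congr p (eval_congr _ p hcd)) N hN
  refine le_trans (Nat.cast_le.2 (card_le_card fun n hn => ?_)) hE1
  rw [mem_filter] at hn
  by_contra hnE
  apply hn.2
  intro K hK I hI
  have h4 := hE2 n hn.1 hnE K hK I hI
  rw [sum_sub_distrib] at h4
  have e1 : (boxCount I K (fun j => MvPolynomial.eval (values F a n) (A j)) : ℝ) = ∑ k ∈ range K,
      Pool.Agent.N368.TS.indv (fun z : Fin s × Fin m => I z.1 z.2) (fun z =>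
        angle (Pool.Agent.TH869.SQ.pr (k + z.1)) (MvPolynomial.eval (values F a n) (A z.2))) := by
    unfold boxCount Pool.Agent.TH869.SQ.pr
    rw [card_filter, Nat.cast_sum]
    refine sum_congr rfl fun k _ => ?_
    rw [Nat.cast_ite, Nat.cast_one, Nat.cast_zero]
    exact Pool.Agent.N368.TS.indv_eq _ _ _ ⟨fun h z => h z.1 z.2, fun h i j => h (i, j)⟩
  have e2 : boxModel A I K = ∑ k ∈ range K, ∏ i : Fin s,
      Pool.Agent.N368.TS.av (Pool.Agent.TH869.SQ.pr (k + i)) (fun t : Fin r → ℤ =>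
        Pool.Agent.N368.TS.indv (I i) (fun j => angle (Pool.Agent.TH869.SQ.pr (k + i))
          (MvPolynomial.eval t (A j)))) := by
    unfold boxModel proportion Pool.Agent.N368.TS.av Pool.Agent.N368.TS.bx Pool.Agent.TH869.SQ.pr
    refine sum_congr rfl fun k _ => prod_congr rfl fun i _ => ?_
    rw [card_filter, Nat.cast_sum, Fintype.card_fin]
    congr 1
    refine sum_congr rfl fun t _ => ?_
    rw [Nat.cast_ite, Nat.cast_one, Nat.cast_zero]
    exact Pool.Agent.N368.TS.indv_eq _ _ _ Iff.rfl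
  rw [e1, e2]
  unfold Pool.Agent.TH869.SQ.lam at h4
  exact h4

open Classical in
theorem signs (r m s : ℕ) (hr : 1 ≤ r) (hm : 1 ≤ m) (hs : 1 ≤ s) (F : Fin r → Finset ℝ) (a : Fin r → ℝ → ℝ) (c : Fin r → ℝ)
    (h : ∀ l, Admissible (F l) (a l) (c l)) (hc : Function.Injective c) :
    ∃ θ : ℝ, 0 < θ ∧ ∀ η ε : ℝ, 0 ≤ η → η ≤ 1 / 4 → 0 < ε → ∀ M : Fin m → Fin r → ℤ, LinearIndependent ℤ M →
      ∃ N₀ : ℕ, ∀ N : ℕ, N₀ ≤ N → ∀ c₀ : Fin m → ℤ,
        (((Ioc N (2 * N)).filter (fun n : ℕ => ¬ ∀ K : ℕ, Real.log N ^ 2 ≤ K → (K : ℝ) ≤ (N : ℝ) ^ θ →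
          ∀ σ : Fin s → Fin m → ℝ, (∀ i j, σ i j = 1 ∨ σ i j = -1) →
            ((1 / 4 - η) ^ (s * m) - ε) * K ≤
              signCount σ η K (fun j => c₀ j + ∑ l, M j l * values F a n l))).card : ℝ) ≤ (N : ℝ) ^ (1 - θ) := by
  obtain ⟨κ₁, C₁, h1, h3, H⟩ := boxes r m s hr hs F a c h hc (1 / 8) (by norm_num)
  refine ⟨κ₁ / 2, by positivity, fun η ε hη hη1 hε M hM => ?_⟩
  obtain ⟨k₁, hk₁⟩ := model_ge s hs hm η ε hη hη1 hε M hM
  have t1 : Tendsto (fun N : ℕ => (N : ℝ) ^ (κ₁ / 2)) atTop atTop :=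
    (tendsto_rpow_atTop (by positivity)).comp tendsto_natCast_atTop_atTop
  have t2 : Tendsto (fun N : ℕ => Real.log N) atTop atTop := Real.tendsto_log_atTop.comp tendsto_natCast_atTop_atTop
  have t3 : Tendsto (fun N : ℕ => Real.log N ^ (1 / 4 : ℝ)) atTop atTop := (tendsto_rpow_atTop (by norm_num)).comp t2
  have ev := (t1.eventually_ge_atTop C₁).and ((t2.eventually_ge_atTop (4 * k₁ / ε + k₁ + 1)).and
    (t3.eventually_ge_atTop (4 * C₁ * 2 / ε)))
  obtain ⟨N₀, hN₀⟩ := eventually_atTop.1 ev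
  refine ⟨N₀ + 1, fun N hN c₀ => ?_⟩
  obtain ⟨q1, q2, q3⟩ := hN₀ N (by omega)
  have hN1 : (1 : ℝ) ≤ N := by exact_mod_cast (by omega : 1 ≤ N)
  have hN0 : (0 : ℝ) < N := by linarith
  have hk0 : (0 : ℝ) ≤ k₁ := Nat.cast_nonneg _
  have hkε : 0 ≤ 4 * k₁ / ε := by positivity
  have hL1 : 1 ≤ Real.log N := by linarith
  have hmain := H (lin c₀ M) N (by omega)
  have hpow : C₁ * (N : ℝ) ^ (1 - κ₁) ≤ (N : ℝ) ^ (1 - κ₁ / 2) := by
    calc C₁ * (N : ℝ) ^ (1 - κ₁) ≤ (N : ℝ) ^ (κ₁ / 2) * (N : ℝ) ^ (1 - κ₁) := mul_le_mul_of_nonneg_right q1 (by positivity)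
      _ = _ := by
          rw [← Real.rpow_add hN0]
          congr 1
          ring
  refine le_trans (Nat.cast_le.2 (card_le_card fun n hn => ?_)) (hmain.trans hpow)
  rw [mem_filter] at hn ⊢
  refine ⟨hn.1, fun hcon => hn.2 ?_⟩
  intro K hK1 hK2 σ hσ
  have hL2 : Real.log N ≤ Real.log N ^ 2 := by nlinarith
  have hKL : Real.log N ≤ K := hL2.trans hK1
  have hK0 : (0 : ℝ) < K := by linarith
  have hb := hcon K (hK2.trans (Real.rpow_le_rpow_of_exponent_le hN1 (by linarith))) (fun i j => side η (σ i j))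
    (fun i j => side_oc η (σ i j))
  have hcount : boxCount (fun i j => side η (σ i j)) K (fun j => MvPolynomial.eval (values F a n) (lin c₀ M j)) =
      signCount σ η K (fun j => c₀ j + ∑ l, M j l * values F a n l) := by
    simp only [lin_eval]
    unfold boxCount signCount
    congr 1
    apply filter_congr
    intro k _
    refine forall_congr' fun i => forall_congr' fun j => ?_
    rw [angle_az, side_iff η hη hη1 (σ i j) (hσ i j) _ (Nat.prime_nth_prime _).pos, Ne,
      ZMod.intCast_zmod_eq_zero_iff_dvd, k_eq]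
  rw [hcount] at hb
  have hmod := hk₁ K (by
    have : (k₁ : ℝ) ≤ K := by linarith
    exact_mod_cast this) c₀ σ hσ
  -- the error term
  have herr : C₁ * ((K : ℝ) ^ (1 / 2 + 1 / 8 : ℝ) * √(1 + Real.log N)) ≤ ε / 4 * K := by
    have r1 : √(1 + Real.log N) ≤ 2 * Real.log N ^ (1 / 2 : ℝ) := by
      rw [← Real.sqrt_eq_rpow]
      have : 1 + Real.log N ≤ 4 * Real.log N := by linarith
      calc √(1 + Real.log N) ≤ √(4 * Real.log N) := Real.sqrt_le_sqrt this
        _ = 2 * √(Real.log N) := by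
            rw [Real.sqrt_mul (by norm_num), show (4 : ℝ) = 2 ^ 2 by norm_num, Real.sqrt_sq (by norm_num)]
    have r2 : Real.log N ^ (3 / 4 : ℝ) ≤ (K : ℝ) ^ (3 / 8 : ℝ) := by
      calc Real.log N ^ (3 / 4 : ℝ) = (Real.log N ^ 2) ^ (3 / 8 : ℝ) := by
            rw [← Real.rpow_natCast, ← Real.rpow_mul (by linarith)]
            norm_num
        _ ≤ _ := Real.rpow_le_rpow (by positivity) hK1 (by norm_num)
    have r3 : Real.log N ^ (1 / 2 : ℝ) * Real.log N ^ (1 / 4 : ℝ) = Real.log N ^ (3 / 4 : ℝ) := by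
      rw [← Real.rpow_add (by linarith)]
      norm_num
    have r4 : (K : ℝ) = (K : ℝ) ^ (1 / 2 + 1 / 8 : ℝ) * (K : ℝ) ^ (3 / 8 : ℝ) := by
      rw [← Real.rpow_add hK0]
      norm_num
    have r5 : C₁ * √(1 + Real.log N) ≤ ε / 4 * (K : ℝ) ^ (3 / 8 : ℝ) := by
      have r6 : 4 * C₁ * 2 / ε * Real.log N ^ (1 / 2 : ℝ) ≤ Real.log N ^ (1 / 2 : ℝ) * Real.log N ^ (1 / 4 : ℝ) := by
        rw [mul_comm]
        exact mul_le_mul_of_nonneg_left q3 (by positivity)
      rw [r3] at r6
      have r7 := r6.trans r2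
      have r8 : C₁ * (2 * Real.log N ^ (1 / 2 : ℝ)) = ε / 4 * (4 * C₁ * 2 / ε * Real.log N ^ (1 / 2 : ℝ)) := by field_simp
      calc C₁ * √(1 + Real.log N) ≤ C₁ * (2 * Real.log N ^ (1 / 2 : ℝ)) := mul_le_mul_of_nonneg_left r1 (by linarith)
        _ = _ := r8
        _ ≤ _ := mul_le_mul_of_nonneg_left r7 (by positivity)
    calc C₁ * ((K : ℝ) ^ (1 / 2 + 1 / 8 : ℝ) * √(1 + Real.log N)) =
          (K : ℝ) ^ (1 / 2 + 1 / 8 : ℝ) * (C₁ * √(1 + Real.log N)) := by ring
      _ ≤ (K : ℝ) ^ (1 / 2 + 1 / 8 : ℝ) * (ε / 4 * (K : ℝ) ^ (3 / 8 : ℝ)) := mul_le_mul_of_nonneg_left r5 (by positivity)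
      _ = ε / 4 * ((K : ℝ) ^ (1 / 2 + 1 / 8 : ℝ) * (K : ℝ) ^ (3 / 8 : ℝ)) := by ring
      _ = ε / 4 * K := by rw [← r4]
  have e2 : (k₁ : ℝ) ≤ ε / 4 * K := by
    have h4 : (4 * k₁ / ε : ℝ) ≤ K := by linarith
    rw [div_le_iff₀ hε] at h4
    linarith
  have e3 : (1 / 4 - η) ^ (s * m) ≤ 1 := pow_le_one₀ (by linarith) (by linarith)
  have e4 : ((1 / 4 - η) ^ (s * m) - ε / 4) * k₁ ≤ ε / 4 * K := by nlinarith
  have hb2 := (abs_le.1 hb).1
  nlinarith

open Classical in
/-- Let `P₁, ..., P_r`, `r ≥ 1`, be generalised polynomials (finite sums of real powers with real coefficients) whose leading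
exponents are positive, not integers and distinct, with positive leading coefficients; let `m, s ≥ 1` be given.

**(1)** Let `δ > 0`. There are `θ > 0` and `C` such that for all polynomials `A₁, ..., A_m ∈ ℤ[T₁, ..., T_r]` and all
`N ≥ 1`, all the integers `N < n ≤ 2 N` with at most `C N ^ (1 - θ)` exceptions have the following property, with
`t = (⌊P₁(n)⌋, ..., ⌊P_r(n)⌋)`: for every `K ≤ N ^ θ` and every product of `s m` intervals, the number of the `k < K` such
that the angles of the `m` Kloosterman sums `S(A_j(t), 1; p)` at the `s` consecutive primes with the numbers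
`k, ..., k + s - 1` are in the intervals differs from the expected number (the sum over `k < K` of the product of the
proportions, over the vectors of residues modulo the primes) by at most `C K ^ (1 / 2 + δ) (1 + log N) ^ (1 / 2)`.

**(2)** There is `θ > 0` such that for `0 ≤ η ≤ 1 / 4`, `ε > 0`, linearly independent `M₁, ..., M_m ∈ ℤ^r` and all large
`N` the following holds for all integers `c₁, ..., c_m`. For all the integers `N < n ≤ 2 N` with at most `N ^ (1 - θ)`
exceptions, with `a_j = c_j + M_j · t`, all the `2 ^ (s m)` patterns of signs occur for the `m` sums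
`S(a_1, 1; p), ..., S(a_m, 1; p)` at `s` consecutive primes, with sums of absolute value greater than `η p ^ (1 / 2)`, each
for at least `((1 / 4 - η) ^ (s m) - ε) K` of the indices `k < K`, for all `K` with `(log N) ^ 2 ≤ K ≤ N ^ θ`. -/
theorem result (r m s : ℕ) (hr : 1 ≤ r) (hm : 1 ≤ m) (hs : 1 ≤ s) (F : Fin r → Finset ℝ) (a : Fin r → ℝ → ℝ)
    (c : Fin r → ℝ) (h : ∀ l, Admissible (F l) (a l) (c l)) (hc : Function.Injective c) :
    (∀ δ : ℝ, 0 < δ → ∃ θ C : ℝ, 0 < θ ∧ 0 < C ∧ ∀ (A : Fin m → MvPolynomial (Fin r) ℤ) (N : ℕ), 1 ≤ N →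
      (((Ioc N (2 * N)).filter (fun n : ℕ => ¬ ∀ K : ℕ, (K : ℝ) ≤ (N : ℝ) ^ θ →
        ∀ I : Fin s → Fin m → Set ℝ, (∀ i j, (I i j).OrdConnected) →
          |(boxCount I K (fun j => MvPolynomial.eval (values F a n) (A j)) : ℝ) - boxModel A I K| ≤
              C * ((K : ℝ) ^ (1 / 2 + δ) * √(1 + Real.log N)))).card : ℝ) ≤ C * (N : ℝ) ^ (1 - θ)) ∧
    (∃ θ : ℝ, 0 < θ ∧ ∀ η ε : ℝ, 0 ≤ η → η ≤ 1 / 4 → 0 < ε → ∀ M : Fin m → Fin r → ℤ, LinearIndependent ℤ M →
      ∃ N₀ : ℕ, ∀ N : ℕ, N₀ ≤ N → ∀ c₀ : Fin m → ℤ,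
        (((Ioc N (2 * N)).filter (fun n : ℕ => ¬ ∀ K : ℕ, Real.log N ^ 2 ≤ K → (K : ℝ) ≤ (N : ℝ) ^ θ →
          ∀ σ : Fin s → Fin m → ℝ, (∀ i j, σ i j = 1 ∨ σ i j = -1) →
            ((1 / 4 - η) ^ (s * m) - ε) * K ≤
              signCount σ η K (fun j => c₀ j + ∑ l, M j l * values F a n l))).card : ℝ) ≤ (N : ℝ) ^ (1 - θ)) := by
  refine ⟨fun δ hδ => ?_, signs r m s hr hm hs F a c h hc⟩
  obtain ⟨κ, C, h1, h2, H⟩ := boxes r m s hr hs F a c h hc δ hδ
  exact ⟨κ, C, h1, by linarith, H⟩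

end Pool.Agent.Results.MP_6ea630_nt.ThinParameterVectors
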